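import Pool.Agent.K1H73.DY.Main

/-!
# The density of the primes with a `p`-adic point of period `n` is smaller than one

Let `f` be a quadratic polynomial over `ℚ`, linearly conjugate to `x ^ 2 + c`, and `n > 3`. The primes `p` for which the
`n`-th dynatomic polynomial of `f` has a root in `ℚ_p` have upper density `< 1`, so (their Dirichlet density exists)
Dirichlet density `< 1`, in particular:

* for every `f` and all `n > p (p - 1) q (q - 1)`, where `p ≠ q` are any two primes not dividing the denominator of `c`;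
* for all `n > 3`, unless the denominator of `c` is an even perfect square which is divisible by `3` or by `5`;
* for all `n > 54`, unless the denominator of `c` is divisible by at least six of the primes 3, 5, 7, 11, 13, 17, 19;
* for all `n > 3` if `c > -3 / 4`, or if `|4 c|_p > 1` and `1 - 4 c` is not a square in `ℚ_p` for some prime `p`.

Method: an element of the Galois group without fixed roots, from the complex conjugation or the decomposition group of
a prime `p`, and Chebotarev's density theorem (`Pool.Agent.W401.Cheb` of the starting files). Good reduction: a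
Frobenius automorphism of the closure of `ℚ_p`; its fixed roots reduce to cycles of `w ^ 2 + c` in `F_p` of a length `m`
and a multiplier of order `r` with `n = m` or `n = m r p ^ e`. For `p = 2` and `v (c) = -1, -2` the polynomial is
conjugate over the closure to `y ^ 2 + b y`, `b` integral, and a Frobenius automorphism may swap the two fixed points
(for `v (c) = -1` one of three automorphisms works).

Joint work: the pieces of the proof in `K1H33`, `K1H61`, `K1H16`, `K1H92` are by helper33, helper61, helper16, helper92.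
-/

set_option autoImplicit false

namespace Pool.Agent.Results.MP_34cc05_nt.DensityBelowOne

open Polynomial

/-- the map `w ↦ w ^ 2 + c` -/
def fq {R : Type} [CommRing R] (c : R) : R → R := fun w => w ^ 2 + c

/-- the derivative of the `m`-th iterate of `w ^ 2 + c` at `z` -/
def mult {R : Type} [CommRing R] (c z : R) (m : ℕ) : R := ∏ i ∈ Finset.range m, (2 * (fq c)^[i] z)

/-- some point `z` of a cycle of `w ^ 2 + c` over the field with `p` elements has exact period `m` and `n = m`, or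
`n = m r p ^ e` where `r` is the order of the multiplier of the cycle (`r = 0` if the multiplier is `0`) -/
def Exc (p : ℕ) (c : ZMod p) (n : ℕ) : Prop := ∃ z : ZMod p, 1 ≤ Function.minimalPeriod (fq c) z ∧
  (n = Function.minimalPeriod (fq c) z ∨ ∃ e : ℕ, n = Function.minimalPeriod (fq c) z *
    orderOf (mult c z (Function.minimalPeriod (fq c) z)) * p ^ e)

/-- `f` is linearly conjugate to `x ^ 2 + c`: `a f (x) + t = (a x + t) ^ 2 + c` with `a ≠ 0` -/
def Conj (f : ℚ[X]) (c : ℚ) : Prop := ∃ a t : ℚ, a ≠ 0 ∧ C a * f + C t = (X ^ 2 + C c).comp (C a * X + C t)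

/-- the conditions -/
def Settled (c : ℚ) (n : ℕ) : Prop :=
  ¬ (Even c.den ∧ IsSquare c.den) ∨
  -3 / 4 < c ∨
  (∃ (p : ℕ) (_ : Fact p.Prime), 1 < ‖((4 * c : ℚ) : ℚ_[p])‖ ∧ ¬ IsSquare ((1 - 4 * c : ℚ) : ℚ_[p])) ∨
  (4 ∣ c.den ∧ ¬ 8 ∣ c.den ∧ (¬ 3 ∣ c.den ∨ ∀ e : ℕ, n ≠ 2 ^ e)) ∨
  (¬ 3 ∣ c.den ∧ ¬ 5 ∣ c.den) ∨
  (¬ 5 ∣ c.den ∧ ¬ 7 ∣ c.den ∧ n ≠ 4) ∨
  (¬ 3 ∣ c.den ∧ ¬ 7 ∣ c.den ∧ n ≠ 6) ∨
  (∃ p ∈ ({3, 5, 7, 11, 13, 17, 19} : Finset ℕ), ∃ q ∈ ({3, 5, 7, 11, 13, 17, 19} : Finset ℕ), p < q ∧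
    ¬ p ∣ c.den ∧ ¬ q ∣ c.den ∧ 54 < n) ∨
  (∃ p q : ℕ, p.Prime ∧ q.Prime ∧ p ≠ q ∧ ¬ p ∣ c.den ∧ ¬ q ∣ c.den ∧ p * (p - 1) * (q * (q - 1)) < n) ∨
  (∃ (p : ℕ) (_ : Fact p.Prime), ¬ p ∣ c.den ∧ ¬ Exc p (c : ZMod p) n)

/-- the conjugating polynomial is determined -/
lemma conj_c {f : ℚ[X]} {c : ℚ} (h : Conj f c) :
    c = f.coeff 2 * f.coeff 0 + f.coeff 1 / 2 - f.coeff 1 ^ 2 / 4 := by
  obtain ⟨a, t, ha, h⟩ := h
  have e : ((X ^ 2 + C c).comp (C a * X + C t) : ℚ[X]) = C (a ^ 2) * X ^ 2 + C (2 * a * t) * X + C (t ^ 2 + c) := by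
    rw [add_comp, pow_comp, X_comp, C_comp, C_add, C_mul, C_mul, C_pow, C_pow]
    rw [show (C 2 : ℚ[X]) = 2 from map_ofNat C 2]
    ring
  rw [e] at h
  have h0 := congrArg (fun P : ℚ[X] => P.coeff 0) h
  have h1 := congrArg (fun P : ℚ[X] => P.coeff 1) h
  have h2 := congrArg (fun P : ℚ[X] => P.coeff 2) h
  simp only [coeff_add, coeff_C_mul, coeff_X_pow, coeff_X, coeff_C] at h0 h1 h2
  norm_num at h0 h1 h2
  have h2' : f.coeff 2 = a := by
    have : a * f.coeff 2 = a * a := by rw [h2]; ring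
    exact mul_left_cancel₀ ha this
  have h1' : f.coeff 1 = 2 * t := by
    have : a * f.coeff 1 = a * (2 * t) := by rw [h1]; ring
    exact mul_left_cancel₀ ha this
  rw [h2', h1']
  linarith

/-- **The density is smaller than one.** Let `f` be a quadratic polynomial over `ℚ` conjugate to `x ^ 2 + c`, `n > 3`,
and `Φ` its `n`-th dynatomic polynomial. In all of the cases `Settled c n` there is `r < 1` such that for all large `N`
at most `r π(N)` of the primes `p ≤ N` are such that `Φ` has a root in `ℚ_p`. -/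
theorem result (f : ℚ[X]) (hf : f.natDegree = 2) (c : ℚ) (hc : Conj f c) (n : ℕ) (hn : 3 < n) (Φ : ℚ[X])
    (hΦ : algebraMap ℚ[X] (RatFunc ℚ) Φ = ∏ d ∈ n.divisors,
      (algebraMap ℚ[X] (RatFunc ℚ) ((f.comp)^[d] X - X)) ^ (ArithmeticFunction.moebius (n / d)))
    (H : Settled c n) :
    ∃ r : ℝ, r < 1 ∧ ∃ N₀ : ℕ, ∀ N : ℕ, N₀ ≤ N →
      ({p : ℕ | p ≤ N ∧ p.Prime ∧ ∃ (_ : Fact p.Prime) (x : ℚ_[p]), aeval x Φ = 0}.ncard : ℝ) /
        ({p : ℕ | p ≤ N ∧ p.Prime}.ncard : ℝ) ≤ r := by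
  have hD := Pool.Agent.K1H73.DY.hRAT f Φ hf n (by omega) hΦ
  obtain ⟨Φ', h1, h2⟩ := Pool.Agent.K1H73.DY.conj_f f hf n (by omega) Φ hD
  rw [← conj_c hc] at h1
  exact h2 (Pool.Agent.K1H73.DY.main_c c n hn Φ' h1 H)

end Pool.Agent.Results.MP_34cc05_nt.DensityBelowOne
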